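import Pool.Agent.helper35.FO.Spec
import Pool.Agent.helper48.SLn.Final

set_option autoImplicit false

namespace Pool.Agent.FO

open Matrix Pool.Agent.H48SL Pool.Agent.UG Pool.Agent.LV

theorem PFC (hLONE : Pool.Agent.PR.LONE_stmt) : PFC_stmt := by
  intro H hinf hQ
  obtain ⟨hD, hK⟩ := hLONE 3 le_rfl H hinf hQ
  refine ⟨fun m hm g => ?_, fun K hKH hi => ?_⟩
  · have hfi : (Cong (Fin 3) m).FiniteIndex := cong_finiteIndex m hm
    have hN : (Cong (Fin 3) m).Normal := by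
      unfold Cong
      infer_instance
    have h1 := hD (Cong (Fin 3) m) hN hfi
    have h2 : g ∈ H ⊔ Cong (Fin 3) m := by
      rw [h1]
      exact Subgroup.mem_top g
    rw [Subgroup.mem_sup_of_normal_right] at h2
    obtain ⟨h, hh, n, hn, rfl⟩ := h2
    refine ⟨h, hh, ?_⟩
    have h3 : (h * n)⁻¹ * h = n⁻¹ := by group
    rw [h3]
    exact (Cong (Fin 3) m).inv_mem hn
  · have hfi : (K.subgroupOf H).FiniteIndex := ⟨hi⟩
    obtain ⟨m, hm, h1⟩ := hK (K.subgroupOf H) hfi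
    refine ⟨m, hm, ?_⟩
    rintro x ⟨hxH, hxC⟩
    have h2 := h1 ⟨x, hxH⟩ (fun i j => by
      obtain ⟨B, hB⟩ := mem_Cong.1 hxC
      show ((m : ℕ) : ℤ) ∣ (x : Matrix (Fin 3) (Fin 3) ℤ) i j - (1 : Matrix (Fin 3) (Fin 3) ℤ) i j
      rw [hB, Matrix.add_apply, Matrix.smul_apply, smul_eq_mul]
      exact ⟨B i j, by ring⟩)
    exact h2

end Pool.Agent.FO
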